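import Pool.Agent.KS6_56.PP.Main

/-!
# Which processes with stationary increments can be completed by a random piece
-/

namespace Pool.Agent.Results.MP_a9102c_pr.StationaryIncrements

open MeasureTheory ProbabilityTheory Filter Topology Set Pool.Agent.KS6_56.PP
open scoped ENNReal NNReal

universe u

/-- If the shift by one is ergodic then the events invariant under all shifts are trivial. -/
theorem erg_of_ergodic {E : Type u} [NormedAddCommGroup E] [MeasurableSpace E] [BorelSpace E]
    [SecondCountableTopology E] {W : Measure C(ℝ≥0, E)} [IsProbabilityMeasure W]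
    (h : Ergodic (shift 1) W) :
    ∀ A, MeasurableSet A → (∀ s, shift s ⁻¹' A = A) → W A = 0 ∨ W A = 1 := by
  intro A hA hinv
  rcases h.toPreErgodic.ae_empty_or_univ hA (hinv 1) with h1 | h1
  · left
    rw [measure_congr h1]
    simp
  · right
    rw [measure_congr h1]
    exact measure_univ

/-- **Main theorem.** `E` is a complete separable normed group, `C(ℝ≥0, E)` carries the Borel
sigma-algebra of locally uniform convergence, `shift s w = w (s + ·) - w s`.

(1) *Characterization.* Let `W` be the law of a continuous process in `E` with stationary increments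
which starts at `0`. Every continuous process `X` whose law is absolutely continuous with respect to
`W` admits a random piece (on an enlargement of its probability space) such that the process
obtained by putting it in front of `X` has the law `W`, if and only if every event invariant under
all shifts has `W`-probability `0` or `1`.

(2) This is so if `W` is the law of a Brownian motion in `ℝ^ι`, for every finite `ι`.

(3) This is so if `W` is the Wiener measure (the original question). -/
theorem result :
    (∀ (E : Type u) [NormedAddCommGroup E] [CompleteSpace E] [SecondCountableTopology E]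
      [MeasurableSpace E] [BorelSpace E] (W : Measure C(ℝ≥0, E)) [IsProbabilityMeasure W],
      (∀ᵐ w ∂W, w 0 = 0) → (∀ s, W.map (shift s) = W) →
      ((∀ (Ω : Type u) [MeasurableSpace Ω] (P : Measure Ω) [IsProbabilityMeasure P]
          (X : Ω → C(ℝ≥0, E)), Measurable X → P.map X ≪ W → AdmitsPiece P X W) ↔
        ∀ A, MeasurableSet A → (∀ s, shift s ⁻¹' A = A) → W A = 0 ∨ W A = 1)) ∧
    (∀ (ι : Type u) [Fintype ι] [Nonempty ι] (W : Measure C(ℝ≥0, ι → ℝ)), IsBrownianVec W →
      ∀ (Ω : Type u) [MeasurableSpace Ω] (P : Measure Ω) [IsProbabilityMeasure P]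
        (X : Ω → C(ℝ≥0, ι → ℝ)), Measurable X → P.map X ≪ W → AdmitsPiece P X W) ∧
    (∀ W : Measure C(ℝ≥0, ℝ), IsBrownianReal (fun (t : ℝ≥0) (w : C(ℝ≥0, ℝ)) => w t) W →
      ∀ (Ω : Type) [MeasurableSpace Ω] (P : Measure Ω) [IsProbabilityMeasure P]
        (X : Ω → C(ℝ≥0, ℝ)), Measurable X → P.map X ≪ W → AdmitsPiece P X W) := by
  refine ⟨?_, ?_, ?_⟩
  · intro E _ _ _ _ _ W _ h0 hinv
    constructor
    · intro h A hA hinvA
      exact trivial_of_admits h0 h A hA hinvA
    · intro herg Ω _ P _ X hX hac
      exact admits h0 hinv herg P X hX hac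
  · intro ι _ _ W hW Ω _ P _ X hX hac
    have hWp := isProb hW
    exact admits (ae_zero_vec hW) (map_shift_vec hW) (erg_of_ergodic (ergodic_vec hW)) P X hX hac
  · intro W hW Ω _ P _ X hX hac
    have hWp : IsProbabilityMeasure W := hW.isGaussianProcess.isProbabilityMeasure
    have h0 : ∀ᵐ w ∂W, w 0 = 0 := hW.toIsPreBrownianReal.eval_zero_ae_eq_zero
    exact admits h0 (map_shift_real hW) (erg_of_ergodic (ergodic_real hW)) P X hX hac

end Pool.Agent.Results.MP_a9102c_pr.StationaryIncrements
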